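import Mathlib

set_option autoImplicit false

namespace Pool.Agent.Helper12.EZ

/-! ### A lemma on pairs of real sequences (stability of quasi-geodesics in Fermi coordinates) -/

/-- Steps of size at most `K` cannot jump over an interval of half-length `K`. -/
theorem discrete_ivt (K : ℝ) (u : ℕ → ℝ) (s : ℝ) (j : ℕ) :
    ∀ n : ℕ, j ≤ n → (∀ i, i < n → |u i - u (i + 1)| ≤ K) → u j ≤ s → s ≤ u n → 0 ≤ K →
      ∃ i, j ≤ i ∧ i ≤ n ∧ |u i - s| ≤ K := by
  intro n
  induction n with
  | zero =>
    intro hj _ h1 h2 hK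
    have hj0 : j = 0 := by omega
    subst hj0
    exact ⟨0, le_rfl, le_rfl, by rw [show u 0 - s = 0 by linarith, abs_zero]; exact hK⟩
  | succ n ih =>
    intro hj hstep h1 h2 hK
    rcases Nat.lt_or_ge j (n + 1) with hlt | hge
    · by_cases hs : s ≤ u n
      · obtain ⟨i, hi1, hi2, hi3⟩ := ih (by omega) (fun i hi => hstep i (by omega)) h1 hs hK
        exact ⟨i, hi1, by omega, hi3⟩
      · refine ⟨n + 1, by omega, le_rfl, ?_⟩
        have h3 := hstep n (by omega)
        rw [abs_le] at h3 ⊢
        push Not at hs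
        constructor <;> linarith
    · have hj0 : j = n + 1 := by omega
      subst hj0
      exact ⟨n + 1, le_rfl, le_rfl, by rw [show u (n + 1) - s = 0 by linarith, abs_zero]; exact hK⟩

theorem abs_sub_le_sum (u : ℕ → ℝ) (a : ℕ) : ∀ k : ℕ,
    |u a - u (a + k)| ≤ ∑ l ∈ Finset.range k, |u (a + l) - u (a + l + 1)| := by
  intro k
  induction k with
  | zero => simp
  | succ k ih =>
    rw [Finset.sum_range_succ]
    have h1 : u a - u (a + (k + 1)) = (u a - u (a + k)) + (u (a + k) - u (a + k + 1)) := by
      rw [show a + (k + 1) = a + k + 1 by ring]; ring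
    rw [h1]
    exact (abs_add_le _ _).trans (by linarith)

/-- Excursion length estimate: between two consecutive visits of the tube, the sequence stays
away from it only for a bounded time; here `a < b` and all intermediate points are outside. -/
theorem excursion (K C r₀ : ℝ) (hK : 1 ≤ K) (hr : K * (C * Real.exp (-r₀)) ≤ 1 / 2)
    (hC : 0 ≤ C) (n : ℕ) (u t : ℕ → ℝ)
    (hu : ∀ i, i < n → |u i - u (i + 1)| ≤ K)
    (hc : ∀ i, i < n → ∀ r : ℝ, r ≤ |t i| → r ≤ |t (i + 1)| →
      |u i - u (i + 1)| ≤ C * Real.exp (-r))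
    (hq : ∀ i j, i ≤ j → j ≤ n →
      (j : ℝ) - i ≤ K * (|t i| + |t j| + |u i - u j|) + K)
    (a b : ℕ) (hab : a < b) (hbn : b ≤ n)
    (hout : ∀ l, a < l → l < b → r₀ ≤ |t l|) :
    ((b : ℝ) - a) / 2 ≤ K * |t a| + K * |t b| + 2 * K ^ 2 + K := by
  have hK0 : 0 < K := by linarith
  have hce : 0 ≤ C * Real.exp (-r₀) := by positivity
  -- bound of |u a - u b|
  have hub : |u a - u b| ≤ 2 * K + ((b : ℝ) - a) * (C * Real.exp (-r₀)) := by
    obtain ⟨k, rfl⟩ : ∃ k, b = a + k := ⟨b - a, by omega⟩
    have hk : 0 < k := by omega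
    refine (abs_sub_le_sum u a k).trans ?_
    have : ∀ l ∈ Finset.range k, |u (a + l) - u (a + l + 1)| ≤
        (if l = 0 then K else 0) + (if l = k - 1 then K else 0) + C * Real.exp (-r₀) := by
      intro l hl
      rw [Finset.mem_range] at hl
      by_cases h0 : l = 0
      · have := hu (a + l) (by omega)
        rw [if_pos h0]
        have h2 : (0 : ℝ) ≤ (if l = k - 1 then K else 0) := by split_ifs <;> linarith
        linarith
      · by_cases h1 : l = k - 1
        · have := hu (a + l) (by omega)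
          rw [if_pos h1, if_neg h0]
          linarith
        · rw [if_neg h0, if_neg h1]
          have := hc (a + l) (by omega) r₀ (hout _ (by omega) (by omega))
            (hout _ (by omega) (by omega))
          linarith
    refine (Finset.sum_le_sum this).trans ?_
    rw [Finset.sum_add_distrib, Finset.sum_add_distrib, Finset.sum_ite_eq' _ 0 (fun _ => K),
      Finset.sum_ite_eq' _ (k - 1) (fun _ => K), if_pos (Finset.mem_range.2 hk),
      if_pos (Finset.mem_range.2 (by omega))]
    simp only [Finset.sum_const, Finset.card_range, nsmul_eq_mul]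
    push_cast
    linarith
  have hq' := hq a b hab.le hbn
  have h1 : K * |u a - u b| ≤ K * (2 * K + ((b : ℝ) - a) * (C * Real.exp (-r₀))) :=
    mul_le_mul_of_nonneg_left hub hK0.le
  have hba : (0 : ℝ) ≤ (b : ℝ) - a := by
    have : (a : ℝ) < b := by exact_mod_cast hab
    linarith
  have h2 : ((b : ℝ) - a) * (K * (C * Real.exp (-r₀))) ≤ ((b : ℝ) - a) * (1 / 2) :=
    mul_le_mul_of_nonneg_left hr hba
  nlinarith

/-- Main lemma on sequences. -/
theorem seq_lemma (K C : ℝ) (hK : 1 ≤ K) (hC : 0 ≤ C) : ∃ R : ℝ, ∀ (n : ℕ) (u t : ℕ → ℝ),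
    (∀ i, i < n → |t i - t (i + 1)| ≤ K) →
    (∀ i, i < n → |u i - u (i + 1)| ≤ K) →
    (∀ i, i < n → ∀ r : ℝ, r ≤ |t i| → r ≤ |t (i + 1)| →
      |u i - u (i + 1)| ≤ C * Real.exp (-r)) →
    (∀ i j, i ≤ j → j ≤ n → (j : ℝ) - i ≤ K * (|t i| + |t j| + |u i - u j|) + K) →
    t n = 0 → ∀ s : ℝ, (u 0 ≤ s ∧ s ≤ u n) ∨ (u n ≤ s ∧ s ≤ u 0) →
    ∃ i, i ≤ n ∧ |t i| ≤ R ∧ |u i - s| ≤ R := by
  have hK0 : 0 < K := by linarith
  -- choice of r₀
  obtain ⟨r₀, hr₀, hr⟩ : ∃ r₀ : ℝ, 0 ≤ r₀ ∧ K * (C * Real.exp (-r₀)) ≤ 1 / 2 := by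
    refine ⟨2 * K * C, by positivity, ?_⟩
    have h1 := Real.add_one_le_exp (2 * K * C)
    have h2 : 0 < Real.exp (2 * K * C) := Real.exp_pos _
    rw [Real.exp_neg, ← mul_assoc, ← div_eq_mul_inv, div_le_iff₀ h2]
    linarith
  set q : ℝ := Real.exp (-(1 / (2 * K))) with hq_def
  have hq0 : 0 < q := Real.exp_pos _
  have hq1 : q < 1 := by
    rw [hq_def, Real.exp_lt_one_iff]
    have : 0 < 1 / (2 * K) := by positivity
    linarith
  set D₀ : ℝ := C * Real.exp (r₀ + K + 1) * (1 - q)⁻¹ with hD₀
  have hD₀0 : 0 ≤ D₀ := by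
    have : 0 < 1 - q := by linarith
    positivity
  set N₀ : ℝ := 4 * K * r₀ + 4 * K ^ 2 + 2 * K with hN₀
  have hN₀0 : 0 ≤ N₀ := by positivity
  refine ⟨r₀ + K * N₀ + D₀ + K, ?_⟩
  intro n u t ht hu hc hq htn s hs
  -- first index in the tube
  have hex : ∃ j, j ≤ n ∧ |t j| ≤ r₀ := ⟨n, le_rfl, by rw [htn, abs_zero]; exact hr₀⟩
  classical
  obtain ⟨j, ⟨hjn, hj⟩, hjmin⟩ : ∃ j, (j ≤ n ∧ |t j| ≤ r₀) ∧
      ∀ l, l < j → r₀ < |t l| := by
    refine ⟨Nat.find hex, Nat.find_spec hex, fun l hl => ?_⟩
    have h1 := Nat.find_min hex hl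
    have h2 := (Nat.find_spec hex).1
    by_contra h3
    exact h1 ⟨by omega, not_lt.1 h3⟩
  -- initial piece
  have hinit : |u 0 - u j| ≤ D₀ := by
    have hpt : ∀ l, l < j → ((j : ℝ) - l) / (2 * K) - r₀ - K - 1 ≤ |t l| := by
      intro l hl
      have hub : |u l - u j| ≤ K + ((j : ℝ) - l) * (C * Real.exp (-r₀)) := by
        obtain ⟨k, rfl⟩ : ∃ k, j = l + k := ⟨j - l, by omega⟩
        have hk : 0 < k := by omega
        refine (abs_sub_le_sum u l k).trans ?_
        have hce : 0 ≤ C * Real.exp (-r₀) := by positivity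
        have : ∀ m ∈ Finset.range k, |u (l + m) - u (l + m + 1)| ≤
            (if m = k - 1 then K else 0) + C * Real.exp (-r₀) := by
          intro m hm
          rw [Finset.mem_range] at hm
          by_cases h1 : m = k - 1
          · have := hu (l + m) (by omega)
            rw [if_pos h1]
            linarith
          · rw [if_neg h1]
            have := hc (l + m) (by omega) r₀ (hjmin _ (by omega)).le
              (hjmin _ (by omega)).le
            linarith
        refine (Finset.sum_le_sum this).trans ?_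
        rw [Finset.sum_add_distrib, Finset.sum_ite_eq' _ (k - 1) (fun _ => K),
          if_pos (Finset.mem_range.2 (by omega))]
        simp only [Finset.sum_const, Finset.card_range, nsmul_eq_mul]
        push_cast
        linarith
      have hq' := hq l j hl.le hjn
      have h1 : K * |u l - u j| ≤ K * (K + ((j : ℝ) - l) * (C * Real.exp (-r₀))) :=
        mul_le_mul_of_nonneg_left hub hK0.le
      have hba : (0 : ℝ) ≤ (j : ℝ) - l := by
        have : (l : ℝ) < j := by exact_mod_cast hl
        linarith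
      have h2 : ((j : ℝ) - l) * (K * (C * Real.exp (-r₀))) ≤ ((j : ℝ) - l) * (1 / 2) :=
        mul_le_mul_of_nonneg_left hr hba
      have h3 : K * |t j| ≤ K * r₀ := mul_le_mul_of_nonneg_left hj hK0.le
      have h4 : ((j : ℝ) - l) / 2 ≤ K * (|t l| + r₀ + K + 1) := by nlinarith
      have h5 : ((j : ℝ) - l) / (2 * K) ≤ |t l| + r₀ + K + 1 := by
        rw [div_le_iff₀ (by positivity)]
        linarith
      linarith
    have hsum := abs_sub_le_sum u 0 j
    simp only [zero_add] at hsum
    refine hsum.trans ?_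
    have hterm : ∀ l ∈ Finset.range j, |u l - u (l + 1)| ≤
        C * Real.exp (r₀ + K + 1) * q ^ (j - 1 - l) := by
      intro l hl
      rw [Finset.mem_range] at hl
      set ρ : ℝ := ((j : ℝ) - 1 - l) / (2 * K) - r₀ - K - 1 with hρ
      have h1 : ρ ≤ |t l| := by
        have := hpt l hl
        have h2 : ((j : ℝ) - 1 - l) / (2 * K) ≤ ((j : ℝ) - l) / (2 * K) := by
          apply div_le_div_of_nonneg_right _ (by positivity)
          linarith
        linarith
      have h2 : ρ ≤ |t (l + 1)| := by
        rcases Nat.lt_or_ge (l + 1) j with h | h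
        · have := hpt (l + 1) h
          push_cast at this
          rw [hρ, show (j : ℝ) - 1 - l = j - (l + 1) by ring]
          exact this
        · have h3 : (j : ℝ) - 1 - l = 0 := by
            have : j = l + 1 := by omega
            rw [this]; push_cast; ring
          rw [hρ, h3, zero_div]
          have := abs_nonneg (t (l + 1))
          linarith
      have h3 := hc l (by omega) ρ h1 h2
      refine h3.trans_eq ?_
      have h4 : q ^ (j - 1 - l) = Real.exp (-(((j : ℝ) - 1 - l) / (2 * K))) := by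
        rw [hq_def, ← Real.exp_nat_mul]
        congr 1
        rw [Nat.cast_sub (by omega), Nat.cast_sub (by omega)]
        push_cast
        ring
      rw [h4, mul_assoc, ← Real.exp_add]
      congr 2
      rw [hρ]
      ring
    refine (Finset.sum_le_sum hterm).trans ?_
    rw [← Finset.mul_sum, hD₀]
    apply mul_le_mul_of_nonneg_left _ (by positivity)
    rw [Finset.sum_range_reflect (fun i => q ^ i) j]
    have := Summable.sum_le_tsum (Finset.range j) (fun i _ => by positivity)
      (summable_geometric_of_lt_one hq0.le hq1)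
    rwa [tsum_geometric_of_lt_one hq0.le hq1] at this
  -- the tube bound after j
  have htube : ∀ i, j ≤ i → i ≤ n → |t i| ≤ r₀ + K * N₀ := by
    intro i hji hin
    have hKN : 0 ≤ K * N₀ := by positivity
    by_cases hi : |t i| ≤ r₀
    · linarith
    · push Not at hi
      -- last index ≤ i in the tube
      have hexa : ∃ m, m ≤ i ∧ |t (i - m)| ≤ r₀ := ⟨i - j, by omega, by
        rw [show i - (i - j) = j by omega]; exact hj⟩
      obtain ⟨m, ⟨hmi, hm⟩, hmmin⟩ : ∃ m, (m ≤ i ∧ |t (i - m)| ≤ r₀) ∧
          ∀ l, l < m → r₀ < |t (i - l)| := by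
        refine ⟨Nat.find hexa, Nat.find_spec hexa, fun l hl => ?_⟩
        have h1 := Nat.find_min hexa hl
        have h2 := (Nat.find_spec hexa).1
        by_contra h3
        exact h1 ⟨by omega, not_lt.1 h3⟩
      have hexb : ∃ m, i + m ≤ n ∧ |t (i + m)| ≤ r₀ := ⟨n - i, by omega, by
        rw [show i + (n - i) = n by omega, htn, abs_zero]; exact hr₀⟩
      obtain ⟨p, ⟨hpi, hp⟩, hpmin⟩ : ∃ m, (i + m ≤ n ∧ |t (i + m)| ≤ r₀) ∧
          ∀ l, l < m → r₀ < |t (i + l)| := by
        refine ⟨Nat.find hexb, Nat.find_spec hexb, fun l hl => ?_⟩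
        have h1 := Nat.find_min hexb hl
        have h2 := (Nat.find_spec hexb).1
        by_contra h3
        exact h1 ⟨by omega, not_lt.1 h3⟩
      have hm0 : 0 < m := by
        rcases Nat.eq_zero_or_pos m with h | h
        · subst h; simp at hm; linarith
        · exact h
      have hp0 : 0 < p := by
        rcases Nat.eq_zero_or_pos p with h | h
        · subst h; simp at hp; linarith
        · exact h
      have hexc := excursion K C r₀ hK hr hC n u t hu hc hq (i - m) (i + p) (by omega) hpi
        (by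
          intro l hl1 hl2
          rcases Nat.lt_or_ge l i with h | h
          · have := hmmin (i - l) (by omega)
            rw [show i - (i - l) = l by omega] at this
            exact this.le
          · have := hpmin (l - i) (by omega)
            rw [show i + (l - i) = l by omega] at this
            exact this.le)
      have h1 : K * |t (i - m)| ≤ K * r₀ := mul_le_mul_of_nonneg_left hm hK0.le
      have h2 : K * |t (i + p)| ≤ K * r₀ := mul_le_mul_of_nonneg_left hp hK0.le
      have h3 : ((i + p : ℕ) : ℝ) - ((i - m : ℕ) : ℝ) = (p : ℝ) + m := by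
        rw [Nat.cast_sub hmi]; push_cast; ring
      rw [h3] at hexc
      have h4 : (m : ℝ) ≤ N₀ := by
        have : (0 : ℝ) ≤ p := by positivity
        rw [hN₀]
        linarith
      have h5 : |t (i - m) - t i| ≤ K * m := by
        have h6 := abs_sub_le_sum t (i - m) m
        rw [show i - m + m = i by omega] at h6
        refine h6.trans ?_
        have : ∀ l ∈ Finset.range m, |t (i - m + l) - t (i - m + l + 1)| ≤ K := by
          intro l hl
          rw [Finset.mem_range] at hl
          exact ht _ (by omega)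
        refine (Finset.sum_le_sum this).trans ?_
        simp
        linarith
      have h6 : |t i| ≤ |t (i - m)| + |t (i - m) - t i| := by
        have := abs_sub_abs_le_abs_sub (t i) (t (i - m))
        rw [abs_sub_comm (t i)] at this
        linarith
      have h7 : K * m ≤ K * N₀ := mul_le_mul_of_nonneg_left h4 hK0.le
      linarith
  have hfin : ∀ i, j ≤ i → i ≤ n → |u i - s| ≤ K →
      ∃ i, i ≤ n ∧ |t i| ≤ r₀ + K * N₀ + D₀ + K ∧ |u i - s| ≤ r₀ + K * N₀ + D₀ + K := by
    intro i h1 h2 h3
    have := htube i h1 h2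
    have hKN : 0 ≤ K * N₀ := by positivity
    exact ⟨i, h2, by linarith, by linarith⟩
  have hfin2 : |u j - s| ≤ D₀ →
      ∃ i, i ≤ n ∧ |t i| ≤ r₀ + K * N₀ + D₀ + K ∧ |u i - s| ≤ r₀ + K * N₀ + D₀ + K := by
    intro h3
    have := htube j le_rfl hjn
    have hKN : 0 ≤ K * N₀ := by positivity
    exact ⟨j, hjn, by linarith, by linarith⟩
  rcases hs with ⟨hs1, hs2⟩ | ⟨hs1, hs2⟩
  · by_cases h : u j ≤ s
    · obtain ⟨i, hi1, hi2, hi3⟩ := discrete_ivt K u s j n hjn hu h hs2 hK0.le
      exact hfin i hi1 hi2 hi3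
    · push Not at h
      apply hfin2
      rw [abs_le] at hinit ⊢
      constructor <;> linarith
  · by_cases h : s ≤ u j
    · obtain ⟨i, hi1, hi2, hi3⟩ := discrete_ivt K (fun i => - u i) (-s) j n hjn
        (fun i hi => by
          have := hu i hi
          rw [show (- u i - - u (i + 1)) = -(u i - u (i + 1)) by ring, abs_neg]
          exact this) (by linarith) (by linarith) hK0.le
      refine hfin i hi1 hi2 ?_
      rw [show - u i - -s = -(u i - s) by ring, abs_neg] at hi3
      exact hi3
    · push Not at h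
      apply hfin2
      rw [abs_le] at hinit ⊢
      constructor <;> linarith

end Pool.Agent.Helper12.EZ
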