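import Mathlib
import Pool.Agent.Helper56.EZ.Defs
import Pool.Agent.Helper12.EZ.Seq

set_option autoImplicit false

namespace Pool.Agent.Helper12.EZ

open Pool.Agent.Helper56.EZ

/-! ### Hyperbolicity from a supply of Fermi coordinate systems -/

/-- `u`, `t` behave on `G` like Fermi coordinates with respect to a geodesic. -/
structure FermiCoord {G : Type} [Group G] (S : Set G) (K C : ℝ) (u t : G → ℝ) : Prop where
  step_t : ∀ x a : G, (a ∈ S ∨ a⁻¹ ∈ S) → |t x - t (x * a)| ≤ K
  step_u : ∀ x a : G, (a ∈ S ∨ a⁻¹ ∈ S) → |u x - u (x * a)| ≤ K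
  contr : ∀ x a : G, (a ∈ S ∨ a⁻¹ ∈ S) → ∀ r : ℝ, r ≤ |t x| → r ≤ |t (x * a)| →
    |u x - u (x * a)| ≤ C * Real.exp (-r)
  qi : ∀ x y : G, wordDist S x y ≤ K * (|t x| + |t y| + |u x - u y|) + K
  dense : ∀ s : ℝ, ∃ m : G, |t m| ≤ K ∧ |u m - s| ≤ K

theorem FermiCoord.neg {G : Type} [Group G] {S : Set G} {K C : ℝ} {u t : G → ℝ}
    (h : FermiCoord S K C u t) : FermiCoord S K C (fun x => - u x) t where
  step_t := h.step_t
  step_u x a ha := by
    have := h.step_u x a ha
    rwa [show (- u x - - u (x * a)) = -(u x - u (x * a)) by ring, abs_neg]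
  contr x a ha r h1 h2 := by
    have := h.contr x a ha r h1 h2
    rwa [show (- u x - - u (x * a)) = -(u x - u (x * a)) by ring, abs_neg]
  qi x y := by
    have := h.qi x y
    rwa [show (- u x - - u y) = -(u x - u y) by ring, abs_neg]
  dense s := by
    obtain ⟨m, h1, h2⟩ := h.dense (-s)
    refine ⟨m, h1, ?_⟩
    rwa [show (- u m - s) = -(u m - -s) by ring, abs_neg]

/-- Word geodesics. -/
theorem exists_word_geodesic {G : Type} [Group G] (S : Set G) (hS : Subgroup.closure S = ⊤)
    (x y : G) : ∃ (n : ℕ) (z : ℕ → G), z 0 = x ∧ z n = y ∧ (n : ℝ) = wordDist S x y ∧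
      (∀ i, i < n → ∃ a : G, (a ∈ S ∨ a⁻¹ ∈ S) ∧ z (i + 1) = z i * a) ∧
      (∀ i j, i ≤ j → j ≤ n → wordDist S (z i) (z j) ≤ (j : ℝ) - i) := by
  obtain ⟨l, hl, hl', hprod⟩ := exists_list_length S hS (x⁻¹ * y)
  refine ⟨l.length, fun i => x * (l.take i).prod, by simp, by simp [hprod], ?_, ?_, ?_⟩
  · rw [hl]; rfl
  · intro i hi
    refine ⟨l[i], hl' _ (List.getElem_mem hi), ?_⟩
    show x * (l.take (i + 1)).prod = x * (l.take i).prod * l[i]
    rw [List.prod_take_succ l i hi, mul_assoc]
  · intro i j hij hjn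
    show wordDist S (x * (l.take i).prod) (x * (l.take j).prod) ≤ _
    unfold wordDist
    have h1 : (x * (l.take i).prod)⁻¹ * (x * (l.take j).prod) = ((l.take j).drop i).prod := by
      have h2 : (l.take j).prod = (l.take i).prod * ((l.take j).drop i).prod := by
        rw [← List.prod_append]
        congr 1
        conv_lhs => rw [← List.take_append_drop i (l.take j)]
        rw [List.take_take, min_eq_left hij]
      rw [h2]
      group
    rw [h1]
    have h3 := wordLength_le_of_list S ((l.take j).drop i) (by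
      intro a ha
      exact hl' a (List.mem_of_mem_take (List.mem_of_mem_drop ha)))
    have h4 : ((l.take j).drop i).length = j - i := by
      rw [List.length_drop, List.length_take]
      omega
    rw [h4] at h3
    have h5 : ((j - i : ℕ) : ℝ) = (j : ℝ) - i := by rw [Nat.cast_sub hij]
    rw [← h5]
    exact_mod_cast h3

/-- Bottleneck property: word geodesics ending on the axis pass close to every point of the axis
between the projections of their end points. -/
theorem bottleneck {G : Type} [Group G] (S : Set G) (hS : Subgroup.closure S = ⊤) (K C : ℝ)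
    (hK : 1 ≤ K) (hC : 0 ≤ C) : ∃ C₁ : ℝ, 0 ≤ C₁ ∧ ∀ u t : G → ℝ, FermiCoord S K C u t →
      ∀ x y m : G, t y = 0 → ∀ s : ℝ, (u x ≤ s ∧ s ≤ u y) ∨ (u y ≤ s ∧ s ≤ u x) →
        |t m| ≤ K → |u m - s| ≤ K →
        wordDist S x m + wordDist S m y ≤ wordDist S x y + C₁ := by
  obtain ⟨R, hR⟩ := seq_lemma K C hK hC
  have hK0 : 0 < K := by linarith
  refine ⟨2 * |K * (R + K + (R + K)) + K|, by positivity, ?_⟩
  intro u t hF x y m hty s hs htm hum
  obtain ⟨n, z, hz0, hzn, hn, hstep, hd⟩ := exists_word_geodesic S hS x y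
  obtain ⟨i, hi, hti, hui⟩ := hR n (fun i => u (z i)) (fun i => t (z i))
    (fun i hi => by
      obtain ⟨a, ha, h⟩ := hstep i hi
      show |t (z i) - t (z (i + 1))| ≤ K
      rw [h]; exact hF.step_t _ _ ha)
    (fun i hi => by
      obtain ⟨a, ha, h⟩ := hstep i hi
      show |u (z i) - u (z (i + 1))| ≤ K
      rw [h]; exact hF.step_u _ _ ha)
    (fun i hi r hr1 hr2 => by
      obtain ⟨a, ha, h⟩ := hstep i hi
      change r ≤ |t (z (i + 1))| at hr2
      show |u (z i) - u (z (i + 1))| ≤ C * Real.exp (-r)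
      rw [h] at hr2 ⊢; exact hF.contr _ _ ha r hr1 hr2)
    (fun i j hij hjn => by
      have h1 := hF.qi (z i) (z j)
      have h2 : (j : ℝ) - i ≤ wordDist S (z i) (z j) := by
        have h3 := wordDist_triangle S hS x (z i) y
        have h4 := wordDist_triangle S hS (z i) (z j) y
        have h5 := hd 0 i (by omega) (by omega)
        have h6 := hd j n hjn le_rfl
        rw [hz0] at h5
        rw [hzn] at h6
        push_cast at h5
        linarith
      exact h2.trans h1)
    (by show t (z n) = 0; rw [hzn]; exact hty) s (by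
      show (u (z 0) ≤ s ∧ s ≤ u (z n)) ∨ (u (z n) ≤ s ∧ s ≤ u (z 0))
      rw [hz0, hzn]; exact hs)
  change |t (z i)| ≤ R at hti
  change |u (z i) - s| ≤ R at hui
  have h1 : wordDist S (z i) m ≤ K * (R + K + (R + K)) + K := by
    refine (hF.qi (z i) m).trans ?_
    have h2 : |u (z i) - u m| ≤ R + K := by
      rw [show u (z i) - u m = (u (z i) - s) - (u m - s) by ring]
      exact (abs_sub _ _).trans (by linarith)
    have h3 : |t (z i)| + |t m| + |u (z i) - u m| ≤ R + K + (R + K) := by linarith
    have h4 := mul_le_mul_of_nonneg_left h3 hK0.le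
    linarith
  have h1' := le_abs_self (K * (R + K + (R + K)) + K)
  have h2 := wordDist_triangle S hS x (z i) m
  have h3 := wordDist_triangle S hS m (z i) y
  have h4 := wordDist_comm S hS m (z i)
  have h5 := hd 0 i (by omega) hi
  have h6 := hd i n hi le_rfl
  rw [hz0] at h5
  rw [hzn] at h6
  push_cast at h5
  linarith

theorem hyperbolic_of_fermi {G : Type} [Group G] (S : Set G) (hS : Subgroup.closure S = ⊤)
    (K C : ℝ) (hK : 1 ≤ K) (hC : 0 ≤ C)
    (h : ∀ w b : G, ∃ u t : G → ℝ, FermiCoord S K C u t ∧ t w = 0 ∧ t b = 0) :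
    IsGromovHyperbolic S := by
  obtain ⟨C₁, hC₁, hb⟩ := bottleneck S hS K C hK hC
  refine ⟨2 * C₁, ?_⟩
  intro w a b c
  -- coordinates with `u w ≤ u b`
  obtain ⟨u, t, hF, htw, htb, huwb⟩ : ∃ u t : G → ℝ, FermiCoord S K C u t ∧ t w = 0 ∧
      t b = 0 ∧ u w ≤ u b := by
    obtain ⟨u, t, hF, htw, htb⟩ := h w b
    rcases le_total (u w) (u b) with h1 | h1
    · exact ⟨u, t, hF, htw, htb, h1⟩
    · exact ⟨fun x => - u x, t, hF.neg, htw, htb, by linarith⟩
  -- the core estimate
  have key : ∀ a c : G, max (u w) (min (u a) (u b)) ≤ max (u w) (min (u c) (u b)) →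
      gromovProduct S w a b - 2 * C₁ ≤ gromovProduct S w a c := by
    intro a c hac
    set s : ℝ := max (u w) (min (u a) (u b)) with hs
    obtain ⟨m, htm, hum⟩ := hF.dense s
    have hws : u w ≤ s := le_max_left _ _
    have hsb : s ≤ u b := by
      rw [hs]; exact max_le huwb (min_le_right _ _)
    have hab : (u a ≤ s ∧ s ≤ u b) ∨ (u b ≤ s ∧ s ≤ u a) := by
      rcases le_total (u a) (u b) with h1 | h1
      · left
        rw [hs, min_eq_left h1]
        exact ⟨le_max_right _ _, max_le huwb h1⟩
      · right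
        rw [hs, min_eq_right h1, max_eq_right huwb]
        exact ⟨le_rfl, h1⟩
    have haw : (u a ≤ s ∧ s ≤ u w) ∨ (u w ≤ s ∧ s ≤ u a) := by
      rcases le_total (u a) (u w) with h1 | h1
      · left
        rw [hs, max_eq_left ((min_le_left _ _).trans h1)]
        exact ⟨h1, le_rfl⟩
      · right
        exact ⟨hws, by rw [hs]; exact max_le h1 (min_le_left _ _)⟩
    have hcw : (u c ≤ s ∧ s ≤ u w) ∨ (u w ≤ s ∧ s ≤ u c) := by
      rcases le_total (u c) (u w) with h1 | h1
      · left
        rw [max_eq_left ((min_le_left _ _).trans h1)] at hac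
        exact ⟨h1.trans hws, hac⟩
      · right
        exact ⟨hws, hac.trans (max_le h1 (min_le_left _ _))⟩
    have e1 := hb u t hF a b m htb s hab htm hum
    have e2 := hb u t hF a w m htw s haw htm hum
    have e3 := hb u t hF c w m htw s hcw htm hum
    have t1 := wordDist_triangle S hS a m w
    have t2 := wordDist_triangle S hS b m w
    have t3 := wordDist_triangle S hS a m c
    have c1 := wordDist_comm S hS b m
    have c2 := wordDist_comm S hS c m
    unfold gromovProduct
    linarith
  rcases le_total (max (u w) (min (u a) (u b))) (max (u w) (min (u c) (u b))) with h1 | h1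
  · have := key a c h1
    have h2 := min_le_left (gromovProduct S w a b) (gromovProduct S w b c)
    linarith
  · have := key c a h1
    have h2 := min_le_right (gromovProduct S w a b) (gromovProduct S w b c)
    rw [gromovProduct_comm S hS w c b, gromovProduct_comm S hS w c a] at this
    linarith

end Pool.Agent.Helper12.EZ
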