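import Mathlib

set_option autoImplicit false

namespace Pool.Agent.Helper12.EZ

open UpperHalfPlane Matrix

open scoped MatrixGroups

/-! ### Fermi coordinates on the upper half-plane with respect to the imaginary axis -/

/-- Absolute value of a point of the upper half-plane. -/
noncomputable def fN (z : ℍ) : ℝ := √(z.re ^ 2 + z.im ^ 2)

/-- Position of the projection to the imaginary axis. -/
noncomputable def fU (z : ℍ) : ℝ := Real.log (fN z)

/-- Signed distance to the imaginary axis. -/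
noncomputable def fT (z : ℍ) : ℝ := Real.arsinh (z.re / z.im)

theorem fN_pos (z : ℍ) : 0 < fN z := by
  unfold fN
  have := z.im_pos
  positivity

theorem fN_sq (z : ℍ) : fN z ^ 2 = z.re ^ 2 + z.im ^ 2 := by
  unfold fN
  rw [Real.sq_sqrt (by positivity)]

theorem sinh_fT (z : ℍ) : Real.sinh (fT z) = z.re / z.im := by
  unfold fT; rw [Real.sinh_arsinh]

theorem cosh_fT (z : ℍ) : Real.cosh (fT z) = fN z / z.im := by
  unfold fT fN
  have h := z.im_pos
  rw [Real.cosh_arsinh, ← Real.sqrt_sq h.le, ← Real.sqrt_div (by positivity),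
    Real.sqrt_sq h.le]
  congr 1
  field_simp
  ring

theorem cosh_fU_sub (z w : ℍ) : Real.cosh (fU z - fU w) = (fN z / fN w + fN w / fN z) / 2 := by
  unfold fU
  rw [← Real.log_div (fN_pos z).ne' (fN_pos w).ne', Real.cosh_log (div_pos (fN_pos z) (fN_pos w)),
    inv_div]

theorem cosh_dist_fermi (z w : ℍ) : Real.cosh (dist z w) =
    Real.cosh (fT z) * Real.cosh (fT w) * Real.cosh (fU z - fU w)
      - Real.sinh (fT z) * Real.sinh (fT w) := by
  rw [UpperHalfPlane.cosh_dist', cosh_fT, cosh_fT, sinh_fT, sinh_fT, cosh_fU_sub]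
  have h1 := z.im_pos
  have h2 := w.im_pos
  have h3 := fN_pos z
  have h4 := fN_pos w
  have h5 := fN_sq z
  have h6 := fN_sq w
  have : (fN z / z.im * (fN w / w.im) * ((fN z / fN w + fN w / fN z) / 2) -
      z.re / z.im * (w.re / w.im)) = (fN z ^ 2 + fN w ^ 2 - 2 * z.re * w.re) /
        (2 * z.im * w.im) := by
    field_simp
  rw [this, h5, h6]
  congr 1
  ring

theorem abs_fT_sub_le (z w : ℍ) : |fT z - fT w| ≤ dist z w := by
  have h1 : Real.cosh (fT z - fT w) ≤ Real.cosh (dist z w) := by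
    rw [cosh_dist_fermi, Real.cosh_sub]
    have h2 := Real.one_le_cosh (fU z - fU w)
    have h3 : 0 < Real.cosh (fT z) * Real.cosh (fT w) := by positivity
    nlinarith
  have h2 := Real.cosh_le_cosh.1 h1
  rwa [abs_of_nonneg (dist_nonneg : 0 ≤ dist z w)] at h2

theorem cosh_fU_sub_le (z w : ℍ) :
    Real.cosh (fT z) * Real.cosh (fT w) * (Real.cosh (fU z - fU w) - 1) ≤
      Real.cosh (dist z w) - 1 := by
  rw [cosh_dist_fermi]
  have h1 := Real.one_le_cosh (fT z - fT w)
  rw [Real.cosh_sub] at h1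
  linarith

theorem abs_fU_sub_le (z w : ℍ) : |fU z - fU w| ≤ dist z w := by
  have h1 : Real.cosh (fU z - fU w) ≤ Real.cosh (dist z w) := by
    have h0 := cosh_fU_sub_le z w
    have h2 := Real.one_le_cosh (fU z - fU w)
    have h3 := Real.one_le_cosh (fT z)
    have h4 := Real.one_le_cosh (fT w)
    have h5 : 1 ≤ Real.cosh (fT z) * Real.cosh (fT w) := by nlinarith
    nlinarith
  have h2 := Real.cosh_le_cosh.1 h1
  rwa [abs_of_nonneg (dist_nonneg : 0 ≤ dist z w)] at h2

theorem sq_half_le_cosh_sub_one (x : ℝ) : x ^ 2 / 2 ≤ Real.cosh x - 1 := by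
  have h1 : Real.cosh x = 1 + 2 * Real.sinh (x / 2) ^ 2 := by
    have := Real.cosh_two_mul (x / 2)
    rw [show 2 * (x / 2) = x by ring] at this
    rw [this, Real.cosh_sq]
    ring
  have h2 : |x / 2| ≤ |Real.sinh (x / 2)| := by
    rw [Real.abs_sinh]
    exact Real.self_le_sinh_iff.2 (abs_nonneg _)
  have h3 := sq_le_sq.2 h2
  rw [h1]
  nlinarith

/-- Contraction of the projection away from the axis. -/
theorem abs_fU_sub_le_exp (z w : ℍ) (K r : ℝ) (hd : dist z w ≤ K) (h1 : r ≤ |fT z|)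
    (h2 : r ≤ |fT w|) : |fU z - fU w| ≤ 2 * √(2 * Real.cosh K) * Real.exp (-r) := by
  have hK : 0 ≤ K := dist_nonneg.trans hd
  have e0 := cosh_fU_sub_le z w
  have e1 : Real.cosh (dist z w) ≤ Real.cosh K := by
    rw [Real.cosh_le_cosh, abs_of_nonneg (dist_nonneg : 0 ≤ dist z w), abs_of_nonneg hK]
    exact hd
  have hcosh : ∀ x : ℝ, r ≤ |x| → Real.exp r / 2 ≤ Real.cosh x := by
    intro x hx
    rw [← Real.cosh_abs, Real.cosh_eq]
    have h3 : Real.exp r ≤ Real.exp |x| := Real.exp_le_exp.2 hx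
    have h4 : 0 < Real.exp (-|x|) := Real.exp_pos _
    linarith
  have c1 := hcosh _ h1
  have c2 := hcosh _ h2
  have er : 0 < Real.exp r := Real.exp_pos r
  have c3 : (Real.exp r / 2) * (Real.exp r / 2) ≤ Real.cosh (fT z) * Real.cosh (fT w) :=
    mul_le_mul c1 c2 (by positivity) (by positivity)
  have c4 := sq_half_le_cosh_sub_one (fU z - fU w)
  have c5 : (Real.exp r / 2) * (Real.exp r / 2) * ((fU z - fU w) ^ 2 / 2) ≤ Real.cosh K := by
    have h3 : (Real.exp r / 2) * (Real.exp r / 2) * ((fU z - fU w) ^ 2 / 2) ≤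
        Real.cosh (fT z) * Real.cosh (fT w) * (Real.cosh (fU z - fU w) - 1) :=
      mul_le_mul c3 c4 (by positivity) (by positivity)
    linarith
  have c6 : |fU z - fU w| * Real.exp r ≤ 2 * √(2 * Real.cosh K) := by
    apply abs_le_of_sq_le_sq' _ (by positivity) |>.2
    rw [mul_pow, mul_pow, sq_abs, Real.sq_sqrt (by positivity)]
    nlinarith
  rw [Real.exp_neg, ← div_eq_mul_inv, le_div_iff₀ er]
  exact c6

theorem dist_le_fermi (z w : ℍ) : dist z w ≤ |fT z| + |fT w| + |fU z - fU w| := by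
  have h0 : 0 ≤ |fT z| + |fT w| + |fU z - fU w| := by positivity
  have h1 : Real.cosh (dist z w) ≤ Real.cosh (|fT z| + |fT w| + |fU z - fU w|) := by
    rw [cosh_dist_fermi, Real.cosh_add, Real.cosh_add, Real.cosh_abs, Real.cosh_abs,
      Real.cosh_abs]
    have h2 : 0 ≤ Real.sinh (|fT z| + |fT w|) * Real.sinh |fU z - fU w| :=
      mul_nonneg (Real.sinh_nonneg_iff.2 (by positivity)) (Real.sinh_nonneg_iff.2 (by positivity))
    have h3 : - (Real.sinh (fT z) * Real.sinh (fT w)) ≤ Real.sinh |fT z| * Real.sinh |fT w| := by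
      rw [← Real.abs_sinh, ← Real.abs_sinh, ← abs_mul]
      exact neg_le_abs _
    have h4 : 0 ≤ Real.sinh |fT z| * Real.sinh |fT w| :=
      mul_nonneg (Real.sinh_nonneg_iff.2 (by positivity)) (Real.sinh_nonneg_iff.2 (by positivity))
    have h5 := Real.one_le_cosh (fU z - fU w)
    nlinarith
  have h2 := Real.cosh_le_cosh.1 h1
  rwa [abs_of_nonneg (dist_nonneg : 0 ≤ dist z w), abs_of_nonneg h0] at h2

/-- The point of the imaginary axis with coordinate `s`. -/
noncomputable def axisPt (s : ℝ) : ℍ := ⟨⟨0, Real.exp s⟩, Real.exp_pos s⟩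

theorem axisPt_re (s : ℝ) : (axisPt s).re = 0 := rfl

theorem axisPt_im (s : ℝ) : (axisPt s).im = Real.exp s := rfl

theorem fT_of_re (z : ℍ) (h : z.re = 0) : fT z = 0 := by
  unfold fT; rw [h, zero_div, Real.arsinh_zero]

theorem fU_axisPt (s : ℝ) : fU (axisPt s) = s := by
  unfold fU fN
  rw [axisPt_re, axisPt_im]
  rw [show (0 : ℝ) ^ 2 + Real.exp s ^ 2 = Real.exp s ^ 2 by ring, Real.sqrt_sq (Real.exp_pos s).le,
    Real.log_exp]

theorem eq_axisPt (z : ℍ) (h : z.re = 0) : z = axisPt (Real.log z.im) := by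
  apply UpperHalfPlane.ext_re_im
  · rw [h, axisPt_re]
  · rw [axisPt_im, Real.exp_log z.im_pos]

theorem dist_axisPt (s s' : ℝ) : dist (axisPt s) (axisPt s') = |s - s'| := by
  rw [UpperHalfPlane.dist_of_re_eq (by rw [axisPt_re, axisPt_re]), axisPt_im, axisPt_im,
    Real.log_exp, Real.log_exp, Real.dist_eq]

/-- Real part of `g • z`. -/
theorem re_smul_eq_zero (g : SL(2, ℝ)) (z : ℍ)
    (h : (g 0 0 * z.re + g 0 1) * (g 1 0 * z.re + g 1 1) + g 0 0 * g 1 0 * z.im ^ 2 = 0) :
    (g • z).re = 0 := by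
  rw [← UpperHalfPlane.coe_re, UpperHalfPlane.coe_specialLinearGroup_apply, Complex.div_re,
    ← add_div]
  apply div_eq_zero_iff.2
  left
  simp only [Algebra.algebraMap_self, RingHom.id_apply, Complex.add_re, Complex.mul_re,
    Complex.ofReal_re, Complex.ofReal_im, zero_mul, sub_zero, Complex.add_im, Complex.mul_im,
    add_zero, UpperHalfPlane.coe_re, UpperHalfPlane.coe_im]
  linarith

/-- Any two points can be moved to the imaginary axis. -/
theorem exists_move (z w : ℍ) : ∃ g : SL(2, ℝ), (g • z).re = 0 ∧ (g • w).re = 0 := by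
  by_cases h : z.re = w.re
  · refine ⟨⟨!![1, -z.re; 0, 1], by simp⟩, ?_, ?_⟩
    · apply re_smul_eq_zero; simp
    · apply re_smul_eq_zero; simp [h]
  · set c : ℝ := (z.re ^ 2 + z.im ^ 2 - w.re ^ 2 - w.im ^ 2) / (2 * (z.re - w.re)) with hc
    have hne : z.re - w.re ≠ 0 := sub_ne_zero.2 h
    have hc' : 2 * c * (z.re - w.re) = z.re ^ 2 + z.im ^ 2 - w.re ^ 2 - w.im ^ 2 := by
      rw [hc]; field_simp
    set R : ℝ := √((z.re - c) ^ 2 + z.im ^ 2) with hR
    have hzim := z.im_pos
    have hRpos : 0 < R := by rw [hR]; positivity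
    have hRz : R ^ 2 = (z.re - c) ^ 2 + z.im ^ 2 := by rw [hR, Real.sq_sqrt (by positivity)]
    have hRw : R ^ 2 = (w.re - c) ^ 2 + w.im ^ 2 := by rw [hRz]; linarith
    set s : ℝ := √(2 * R) with hs
    have hspos : 0 < s := by rw [hs]; positivity
    have hs2 : s ^ 2 = 2 * R := by rw [hs, Real.sq_sqrt (by positivity)]
    refine ⟨⟨!![1 / s, (R - c) / s; -(1 / s), (R + c) / s], ?_⟩, ?_, ?_⟩
    · rw [Matrix.det_fin_two_of]
      field_simp
      rw [hs2]; ring
    · apply re_smul_eq_zero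
      simp
      field_simp
      linarith
    · apply re_smul_eq_zero
      simp
      field_simp
      linarith

/-- Geodesicity of the upper half-plane, in the form of intermediate points. -/
theorem exists_between (z w : ℍ) (a b : ℝ) (ha : 0 ≤ a) (hb : 0 ≤ b) (h : dist z w ≤ a + b) :
    ∃ y : ℍ, dist z y ≤ a ∧ dist y w ≤ b := by
  obtain ⟨g, hz, hw⟩ := exists_move z w
  have h1 := eq_axisPt _ hz
  have h2 := eq_axisPt _ hw
  set α := Real.log (g • z).im
  set β := Real.log (g • w).im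
  have h3 : dist z w = |α - β| := by
    rw [← dist_smul g z w, h1, h2, dist_axisPt]
  have hkey : ∃ γ : ℝ, |α - γ| ≤ a ∧ |γ - β| ≤ b := by
    rw [h3] at h
    rcases le_total α β with h4 | h4
    · rw [abs_of_nonpos (by linarith)] at h
      refine ⟨min (α + a) β, ?_, ?_⟩
      · rw [abs_le]
        constructor
        · have := min_le_left (α + a) β; linarith
        · have := le_min (by linarith : α ≤ α + a) h4; linarith
      · rw [abs_le]
        constructor
        · have := le_min (by linarith : β - b ≤ α + a) (by linarith : β - b ≤ β); linarith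
        · have := min_le_right (α + a) β; linarith
    · rw [abs_of_nonneg (by linarith)] at h
      refine ⟨max (α - a) β, ?_, ?_⟩
      · rw [abs_le]
        constructor
        · have := max_le (by linarith : α - a ≤ α) h4; linarith
        · have := le_max_left (α - a) β; linarith
      · rw [abs_le]
        constructor
        · have := le_max_right (α - a) β; linarith
        · have := max_le (by linarith : α - a ≤ β + b) (by linarith : β ≤ β + b); linarith
  obtain ⟨γ, hγ1, hγ2⟩ := hkey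
  refine ⟨g⁻¹ • axisPt γ, ?_, ?_⟩
  · rw [← dist_smul g z, smul_inv_smul, h1, dist_axisPt]; exact hγ1
  · rw [← dist_smul g _ w, smul_inv_smul, h2, dist_axisPt]; exact hγ2

/-- Distance of `g • I` from `I` in terms of the entries. -/
theorem cosh_dist_I (g : SL(2, ℝ)) : Real.cosh (dist UpperHalfPlane.I (g • UpperHalfPlane.I)) =
    (g 0 0 ^ 2 + g 0 1 ^ 2 + g 1 0 ^ 2 + g 1 1 ^ 2) / 2 := by
  have hdet : g 0 0 * g 1 1 - g 0 1 * g 1 0 = 1 := by
    have := g.det_coe
    rwa [Matrix.det_fin_two] at this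
  have hpos : 0 < g 1 0 ^ 2 + g 1 1 ^ 2 := by
    rcases eq_or_ne (g 1 0) 0 with h | h
    · have : g 1 1 ≠ 0 := by
        intro h'
        rw [h, h'] at hdet
        norm_num at hdet
      positivity
    · positivity
  have hre : (g • UpperHalfPlane.I).re = (g 0 0 * g 1 0 + g 0 1 * g 1 1) /
      (g 1 0 ^ 2 + g 1 1 ^ 2) := by
    rw [← UpperHalfPlane.coe_re, UpperHalfPlane.coe_specialLinearGroup_apply, Complex.div_re,
      ← add_div]
    simp [Complex.normSq_apply]
    congr 1 <;> ring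
  have him : (g • UpperHalfPlane.I).im = 1 / (g 1 0 ^ 2 + g 1 1 ^ 2) := by
    rw [← UpperHalfPlane.coe_im, UpperHalfPlane.coe_specialLinearGroup_apply, Complex.div_im,
      ← sub_div]
    simp [Complex.normSq_apply]
    rw [← one_div]
    congr 1
    linarith
  rw [UpperHalfPlane.cosh_dist', hre, him, UpperHalfPlane.I_re, UpperHalfPlane.I_im]
  field_simp
  have h1 : g 0 0 * g 1 1 = 1 + g 0 1 * g 1 0 := by linarith
  nlinarith [h1, hdet]

end Pool.Agent.Helper12.EZ
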