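import Mathlib
import Pool.Agent.Helper56.EZ.Defs
import Pool.Agent.Helper12.EZ.Coord
import Pool.Agent.Helper12.EZ.Fermi

set_option autoImplicit false

namespace Pool.Agent.Helper12.EZ

open Pool.Agent.Helper56.EZ UpperHalfPlane Matrix

open scoped MatrixGroups

/-! ### Cocompact discrete subgroups of `SL(2, ℝ)` are hyperbolic -/

/-- The orbit map based at `I`. -/
noncomputable def orb {Γ : Subgroup SL(2, ℝ)} (g : Γ) : ℍ := (g : SL(2, ℝ)) • UpperHalfPlane.I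

theorem dist_orb {Γ : Subgroup SL(2, ℝ)} (x y : Γ) :
    dist (orb x) (orb y) = dist UpperHalfPlane.I (orb (x⁻¹ * y)) := by
  unfold orb
  rw [← dist_smul ((x : SL(2, ℝ))⁻¹) ((x : SL(2, ℝ)) • UpperHalfPlane.I), inv_smul_smul,
    smul_smul]
  rfl

theorem dist_orb_mul {Γ : Subgroup SL(2, ℝ)} (x a : Γ) :
    dist (orb x) (orb (x * a)) = dist UpperHalfPlane.I (orb a) := by
  rw [dist_orb, inv_mul_cancel_left]

theorem dist_orb_inv {Γ : Subgroup SL(2, ℝ)} (a : Γ) :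
    dist UpperHalfPlane.I (orb a⁻¹) = dist UpperHalfPlane.I (orb a) := by
  have h := dist_orb a 1
  rw [mul_one] at h
  rw [← h, dist_comm]
  congr 1
  unfold orb
  simp

theorem orbit_dense (Γ : Subgroup SL(2, ℝ))
    (hco : ∃ M : ℝ, ∀ A : SL(2, ℝ), ∃ k ∈ Γ, ∀ i j,
      |((k * A : SL(2, ℝ)) : Matrix (Fin 2) (Fin 2) ℝ) i j| ≤ M) :
    ∃ D : ℝ, 0 ≤ D ∧ ∀ z : ℍ, ∃ k : Γ, dist (orb k) z ≤ D := by
  obtain ⟨M, hM⟩ := hco
  refine ⟨2 * M ^ 2, by positivity, fun z => ?_⟩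
  obtain ⟨k, hk, hkM⟩ := hM z.toSL2R
  refine ⟨⟨k⁻¹, Γ.inv_mem hk⟩, ?_⟩
  have h1 : dist (orb (⟨k⁻¹, Γ.inv_mem hk⟩ : Γ)) z =
      dist UpperHalfPlane.I ((k * z.toSL2R) • UpperHalfPlane.I) := by
    unfold orb
    rw [mul_smul, toSL2R_smul_I, ← dist_smul k (k⁻¹ • UpperHalfPlane.I) z, smul_inv_smul]
  rw [h1]
  have h2 := cosh_dist_I (k * z.toSL2R)
  have h3 := sq_half_le_cosh_sub_one (dist UpperHalfPlane.I ((k * z.toSL2R) • UpperHalfPlane.I))
  have h4 : ∀ i j, ((k * z.toSL2R : SL(2, ℝ)) i j) ^ 2 ≤ M ^ 2 := by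
    intro i j
    exact sq_le_sq' (abs_le.1 (hkM i j)).1 (abs_le.1 (hkM i j)).2
  have a1 := h4 0 0
  have a2 := h4 0 1
  have a3 := h4 1 0
  have a4 := h4 1 1
  nlinarith [sq_nonneg (dist UpperHalfPlane.I ((k * z.toSL2R) • UpperHalfPlane.I) - 1)]

theorem orbit_finite (Γ : Subgroup SL(2, ℝ))
    (hdisc : ∀ R : ℝ, {k : Γ | ∀ i j,
      |((k : SL(2, ℝ)) : Matrix (Fin 2) (Fin 2) ℝ) i j| ≤ R}.Finite) (R : ℝ) :
    {k : Γ | dist UpperHalfPlane.I (orb k) ≤ R}.Finite := by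
  refine (hdisc (√(2 * Real.cosh R))).subset ?_
  intro k hk
  have hk' : dist UpperHalfPlane.I (orb k) ≤ R := hk
  show ∀ i j, |((k : SL(2, ℝ)) : Matrix (Fin 2) (Fin 2) ℝ) i j| ≤ _
  have h1 : Real.cosh (dist UpperHalfPlane.I (orb k)) ≤ Real.cosh R := by
    rw [Real.cosh_le_cosh, abs_of_nonneg dist_nonneg, abs_of_nonneg (dist_nonneg.trans hk')]
    exact hk'
  have h2 := cosh_dist_I (k : SL(2, ℝ))
  have h3 : ((k : SL(2, ℝ)) 0 0) ^ 2 + ((k : SL(2, ℝ)) 0 1) ^ 2 + ((k : SL(2, ℝ)) 1 0) ^ 2 +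
      ((k : SL(2, ℝ)) 1 1) ^ 2 ≤ 2 * Real.cosh R := by
    unfold orb at h1
    linarith
  have h4 : ∀ i j, ((k : SL(2, ℝ)) i j) ^ 2 ≤ 2 * Real.cosh R := by
    intro i j
    have a1 := sq_nonneg ((k : SL(2, ℝ)) 0 0)
    have a2 := sq_nonneg ((k : SL(2, ℝ)) 0 1)
    have a3 := sq_nonneg ((k : SL(2, ℝ)) 1 0)
    have a4 := sq_nonneg ((k : SL(2, ℝ)) 1 1)
    fin_cases i <;> fin_cases j <;> simp only [Fin.zero_eta, Fin.mk_one, Fin.isValue] <;> linarith
  intro i j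
  exact Real.abs_le_sqrt (h4 i j)

/-- Orbit points are joined to the identity by short words. -/
theorem exists_short_word (Γ : Subgroup SL(2, ℝ)) (D : ℝ) (hD0 : 0 ≤ D)
    (hD : ∀ z : ℍ, ∃ k : Γ, dist (orb k) z ≤ D) :
    ∀ (n : ℕ) (z : ℍ), dist UpperHalfPlane.I z ≤ n → ∀ g : Γ, dist (orb g) z ≤ D →
      ∃ l : List Γ, l.length ≤ n + 1 ∧
        (∀ a ∈ l, dist UpperHalfPlane.I (orb a) ≤ 2 * D + 1) ∧ l.prod = g := by
  intro n
  induction n with
  | zero =>
    intro z hz g hg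
    refine ⟨[g], by simp, ?_, by simp⟩
    intro a ha
    rw [List.mem_singleton] at ha
    subst ha
    have h1 : dist UpperHalfPlane.I (orb a) ≤ dist UpperHalfPlane.I z + dist z (orb a) :=
      dist_triangle _ _ _
    rw [dist_comm z] at h1
    push_cast at hz
    linarith
  | succ n ih =>
    intro z hz g hg
    obtain ⟨y, hy1, hy2⟩ := exists_between UpperHalfPlane.I z n 1 (by positivity) (by norm_num)
      (by push_cast at hz; exact hz)
    obtain ⟨k, hk⟩ := hD y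
    obtain ⟨l, hl1, hl2, hl3⟩ := ih y hy1 k hk
    refine ⟨l ++ [k⁻¹ * g], by simp; omega, ?_, ?_⟩
    · intro a ha
      rcases List.mem_append.1 ha with h | h
      · exact hl2 a h
      · rw [List.mem_singleton] at h
        subst h
        rw [← dist_orb]
        have h1 := dist_triangle (orb k) y (orb g)
        have h2 := dist_triangle y z (orb g)
        rw [dist_comm z] at h2
        linarith
    · rw [List.prod_append, hl3, List.prod_singleton, mul_inv_cancel_left]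

theorem hyperbolic_of_cocompact (Γ : Subgroup (Matrix.SpecialLinearGroup (Fin 2) ℝ))
    (hdisc : ∀ R : ℝ, {k : Γ | ∀ i j,
      |((k : Matrix.SpecialLinearGroup (Fin 2) ℝ) : Matrix (Fin 2) (Fin 2) ℝ) i j| ≤ R}.Finite)
    (hco : ∃ M : ℝ, ∀ A : Matrix.SpecialLinearGroup (Fin 2) ℝ, ∃ k ∈ Γ, ∀ i j,
      |((k * A : Matrix.SpecialLinearGroup (Fin 2) ℝ) : Matrix (Fin 2) (Fin 2) ℝ) i j| ≤ M) :
    (∃ S : Finset Γ, Subgroup.closure (S : Set Γ) = ⊤) ∧
    ∀ S : Finset Γ, Subgroup.closure (S : Set Γ) = ⊤ → IsGromovHyperbolic (S : Set Γ) := by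
  obtain ⟨D, hD0, hD⟩ := orbit_dense Γ hco
  have hfin := orbit_finite Γ hdisc
  set S₀ : Finset Γ := (hfin (2 * D + 1)).toFinset with hS₀
  have hmem : ∀ a : Γ, a ∈ S₀ ↔ dist UpperHalfPlane.I (orb a) ≤ 2 * D + 1 := by
    intro a
    rw [hS₀, Set.Finite.mem_toFinset, Set.mem_ofPred_eq]
  -- short words
  have hword : ∀ g : Γ, ∃ l : List Γ, (l.length : ℝ) ≤ dist UpperHalfPlane.I (orb g) + 2 ∧
      (∀ a ∈ l, a ∈ S₀) ∧ l.prod = g := by
    intro g
    obtain ⟨l, hl1, hl2, hl3⟩ := exists_short_word Γ D hD0 hD ⌈dist UpperHalfPlane.I (orb g)⌉₊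
      (orb g) (Nat.le_ceil _) g (by rw [dist_self]; exact hD0)
    refine ⟨l, ?_, fun a ha => (hmem a).2 (hl2 a ha), hl3⟩
    have h1 : (l.length : ℝ) ≤ (⌈dist UpperHalfPlane.I (orb g)⌉₊ : ℝ) + 1 := by exact_mod_cast hl1
    have h2 := Nat.ceil_lt_add_one (dist_nonneg : 0 ≤ dist UpperHalfPlane.I (orb g))
    linarith
  refine ⟨⟨S₀, ?_⟩, ?_⟩
  · rw [eq_top_iff]
    intro g _
    obtain ⟨l, _, hl2, rfl⟩ := hword g
    exact Subgroup.list_prod_mem _ (fun a ha => Subgroup.subset_closure (hl2 a ha))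
  intro S hS
  -- constants
  obtain ⟨K₁, hK₁0, hK₁⟩ : ∃ K₁ : ℝ, 0 ≤ K₁ ∧ ∀ a : Γ, (a ∈ (S : Set Γ) ∨ a⁻¹ ∈ (S : Set Γ)) →
      dist UpperHalfPlane.I (orb a) ≤ K₁ := by
    refine ⟨∑ a ∈ S, dist UpperHalfPlane.I (orb a),
      Finset.sum_nonneg (fun _ _ => dist_nonneg), fun a ha => ?_⟩
    rcases ha with ha | ha
    · exact Finset.single_le_sum (f := fun a => dist UpperHalfPlane.I (orb a))
        (fun _ _ => dist_nonneg) (Finset.mem_coe.1 ha)
    · rw [← dist_orb_inv a]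
      exact Finset.single_le_sum (f := fun a => dist UpperHalfPlane.I (orb a))
        (fun _ _ => dist_nonneg) (Finset.mem_coe.1 ha)
  obtain ⟨L, hL0, hL⟩ : ∃ L : ℝ, 0 ≤ L ∧ ∀ a ∈ S₀, (wordLength (S : Set Γ) a : ℝ) ≤ L :=
    ⟨∑ a ∈ S₀, (wordLength (S : Set Γ) a : ℝ), by positivity, fun a ha =>
      Finset.single_le_sum (f := fun a => (wordLength (S : Set Γ) a : ℝ))
        (fun _ _ => by positivity) ha⟩
  have hlen : ∀ g : Γ, (wordLength (S : Set Γ) g : ℝ) ≤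
      L * (dist UpperHalfPlane.I (orb g) + 2) := by
    intro g
    obtain ⟨l, hl1, hl2, rfl⟩ := hword g
    have h1 : ∀ l : List Γ, (∀ a ∈ l, a ∈ S₀) →
        (wordLength (S : Set Γ) l.prod : ℝ) ≤ L * l.length := by
      intro l
      induction l with
      | nil => intro _; simp [wordLength_one]
      | cons a l ih =>
        intro hl
        rw [List.prod_cons, List.length_cons]
        have h2 := ih (fun b hb => hl b (List.mem_cons_of_mem _ hb))
        have h3 := hL a (hl a (List.mem_cons_self))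
        have h4 : (wordLength (S : Set Γ) (a * l.prod) : ℝ) ≤
            wordLength (S : Set Γ) a + wordLength (S : Set Γ) l.prod := by
          exact_mod_cast wordLength_mul_le (S : Set Γ) hS a l.prod
        push_cast
        linarith
    exact (h1 l hl2).trans (mul_le_mul_of_nonneg_left hl1 hL0)
  set K : ℝ := K₁ + D + 2 * L + 1 with hK
  apply hyperbolic_of_fermi (S : Set Γ) hS K (2 * √(2 * Real.cosh K)) (by linarith)
    (by positivity)
  intro w b
  obtain ⟨g, hgw, hgb⟩ := exists_move (orb w) (orb b)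
  refine ⟨fun x => fU (g • orb x), fun x => fT (g • orb x), ?_, fT_of_re _ hgw, fT_of_re _ hgb⟩
  have hstep : ∀ x a : Γ, (a ∈ (S : Set Γ) ∨ a⁻¹ ∈ (S : Set Γ)) →
      dist (g • orb x) (g • orb (x * a)) ≤ K := by
    intro x a ha
    rw [dist_smul, dist_orb_mul]
    have := hK₁ a ha
    linarith
  refine ⟨fun x a ha => (abs_fT_sub_le _ _).trans (hstep x a ha),
    fun x a ha => (abs_fU_sub_le _ _).trans (hstep x a ha),
    fun x a ha r h1 h2 => abs_fU_sub_le_exp _ _ K r (hstep x a ha) h1 h2, ?_, ?_⟩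
  · intro x y
    have h1 := hlen (x⁻¹ * y)
    rw [← dist_orb, ← dist_smul g] at h1
    have h2 := dist_le_fermi (g • orb x) (g • orb y)
    have h3 : 0 ≤ |fT (g • orb x)| + |fT (g • orb y)| + |fU (g • orb x) - fU (g • orb y)| := by
      positivity
    unfold wordDist
    refine h1.trans ?_
    have h4 : L * (dist (g • orb x) (g • orb y) + 2) ≤
        L * (|fT (g • orb x)| + |fT (g • orb y)| + |fU (g • orb x) - fU (g • orb y)|) + 2 * L := by
      have := mul_le_mul_of_nonneg_left h2 hL0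
      linarith
    have h5 : L * (|fT (g • orb x)| + |fT (g • orb y)| + |fU (g • orb x) - fU (g • orb y)|) ≤
        K * (|fT (g • orb x)| + |fT (g • orb y)| + |fU (g • orb x) - fU (g • orb y)|) :=
      mul_le_mul_of_nonneg_right (by linarith) h3
    show L * (dist (g • orb x) (g • orb y) + 2) ≤
      K * (|fT (g • orb x)| + |fT (g • orb y)| + |fU (g • orb x) - fU (g • orb y)|) + K
    linarith
  · intro s
    obtain ⟨m, hm⟩ := hD (g⁻¹ • axisPt s)
    have h1 : dist (g • orb m) (axisPt s) ≤ D := by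
      rw [← dist_smul g⁻¹, inv_smul_smul]; exact hm
    refine ⟨m, ?_, ?_⟩
    · have h2 := abs_fT_sub_le (g • orb m) (axisPt s)
      rw [fT_of_re _ (axisPt_re s), sub_zero] at h2
      show |fT (g • orb m)| ≤ K
      linarith
    · have h2 := abs_fU_sub_le (g • orb m) (axisPt s)
      rw [fU_axisPt] at h2
      show |fU (g • orb m) - s| ≤ K
      linarith

end Pool.Agent.Helper12.EZ
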